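import Pool.Agent.W326.DU.Stm

set_option autoImplicit false

namespace Pool.Agent.W362.DU

open Pool.Agent.W326.DU

/-- sum against the signs of an edge -/
theorem sum_sg2 {M : Type} [AddCommGroup M] (i : Fin 26) (F : Fin 10 → Fin 10 → M) :
    ∑ b, ∑ a, sg2 i a b • F a b = F (eL i).1 (eL i).2 - F (eL i).2 (eL i).1 := by
  have h1 : ∀ a b : Fin 10, sg2 i a b • F a b =
      (if (eL i).1 = a then (if (eL i).2 = b then F a b else 0) else 0) -
      (if (eL i).1 = b then (if (eL i).2 = a then F a b else 0) else 0) := by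
    intro a b
    unfold sg2
    rw [sub_smul]
    congr 1
    · by_cases h : eL i = (a, b)
      · rw [if_pos h]
        simp [h]
      · rw [if_neg h, zero_smul]
        by_cases h2 : (eL i).1 = a
        · rw [if_pos h2, if_neg]
          intro h3
          exact h (Prod.ext h2 h3)
        · rw [if_neg h2]
    · by_cases h : eL i = (b, a)
      · rw [if_pos h]
        simp [h]
      · rw [if_neg h, zero_smul]
        by_cases h2 : (eL i).1 = b
        · rw [if_pos h2, if_neg]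
          intro h3
          exact h (Prod.ext h2 h3)
        · rw [if_neg h2]
  simp only [h1, Finset.sum_sub_distrib]
  congr 1
  · simp only [Finset.sum_ite_eq, Finset.mem_univ, if_true]
  · rw [Finset.sum_comm]
    have : ∀ a : Fin 10, ∑ b : Fin 10,
        (if (eL i).1 = b then (if (eL i).2 = a then F a b else 0) else 0) =
        if (eL i).2 = a then F a (eL i).1 else 0 := by
      intro a
      simp only [Finset.sum_ite_eq, Finset.mem_univ, if_true]
    simp only [this, Finset.sum_ite_eq, Finset.mem_univ, if_true]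

theorem sg3_eq : ∀ (j : Fin 16) (i : Fin 26) (a : Fin 10),
    sg3 j a (eL i).1 (eL i).2 =
      (if (tL j).1 = a then sg2 i (tL j).2.1 (tL j).2.2 else 0)
      - (if (tL j).2.1 = a then sg2 i (tL j).1 (tL j).2.2 else 0)
      + (if (tL j).2.2 = a then sg2 i (tL j).1 (tL j).2.1 else 0) := by
  decide +kernel

section
variable {G : Type} [Group G]

theorem Rf_apply (s : Fin 10 → G) (v : Fin 10) (x : ZG G) :
    Rf ℤ s v x = x * (MonoidAlgebra.of ℤ G (s v) - 1) := rfl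

theorem Lf_apply (s : Fin 10 → G) (v : Fin 10) (x : ZG G) :
    Lf ℤ s v x = (MonoidAlgebra.of ℤ G (s v) - 1) * x := rfl

theorem Tr_apply (t : G) (x : ZG G) : Tr t x = x * MonoidAlgebra.of ℤ G t := rfl

theorem lm_apply (a x : ZG G) : lm ℤ a x = a * x := rfl

/-- pairing in degree 1, coordinate form -/
theorem pr1 (s : Fin 10 → G) (t : G) (X : Fin 10 → ZG G) (Y : ZG G) (y : Fin 26 → ZG G)
    (w : Fin 4 → ZG G) :
    ∑ b, (c2 (Rf ℤ s) y b + f1 (Tr t) w b) * X b + (- k1 (Rf ℤ s) w) * Y =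
      ∑ i, y i * e1 (Lf ℤ s) X i +
        ∑ k, w k * g1 (Lf ℤ s) (lm ℤ (MonoidAlgebra.of ℤ G t)) X Y k := by
  have h1 : ∑ b, c2 (Rf ℤ s) y b * X b = ∑ i, y i * e1 (Lf ℤ s) X i := by
    have e : ∀ i, y i * e1 (Lf ℤ s) X i =
        ∑ b, ∑ a, sg2 i a b • (y i * ((MonoidAlgebra.of ℤ G (s a) - 1) * X b)) := by
      intro i
      rw [sum_sg2 i (fun a b => y i * ((MonoidAlgebra.of ℤ G (s a) - 1) * X b))]
      unfold e1
      rw [Lf_apply, Lf_apply, mul_sub]
    simp only [e]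
    rw [Finset.sum_comm]
    refine Finset.sum_congr rfl fun b _ => ?_
    rw [Finset.sum_comm]
    unfold c2
    rw [Finset.sum_mul]
    refine Finset.sum_congr rfl fun a _ => ?_
    rw [Rf_apply, alt2, Finset.sum_mul, Finset.sum_mul]
    refine Finset.sum_congr rfl fun i _ => ?_
    rw [smul_mul_assoc, smul_mul_assoc, mul_assoc]
  have h2 : ∑ b, f1 (Tr t) w b * X b =
      ∑ k, w k * (MonoidAlgebra.of ℤ G t * X (mm k) - X (pp k)) := by
    unfold f1
    simp only [Finset.sum_mul, sub_mul, ite_mul, zero_mul]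
    rw [Finset.sum_comm]
    refine Finset.sum_congr rfl fun k _ => ?_
    rw [Finset.sum_sub_distrib]
    simp only [Finset.sum_ite_eq, Finset.mem_univ, if_true]
    rw [Tr_apply, mul_sub, mul_assoc]
  have h3 : (- k1 (Rf ℤ s) w) * Y =
      ∑ k, w k * (-(Lf ℤ s (pp k) Y)) := by
    unfold k1
    rw [neg_mul, Finset.sum_mul, ← Finset.sum_neg_distrib]
    refine Finset.sum_congr rfl fun k _ => ?_
    rw [Rf_apply, Lf_apply, mul_neg, mul_assoc]
  simp only [add_mul, Finset.sum_add_distrib]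
  rw [h1, h2, h3, add_assoc, ← Finset.sum_add_distrib]
  congr 1
  refine Finset.sum_congr rfl fun k _ => ?_
  rw [← mul_add]
  unfold g1
  rw [lm_apply, sub_eq_add_neg (_ - _)]

/-- pairing in degree 2, coordinate form -/
theorem pr2 (s : Fin 10 → G) (t : G) (C : Fin 26 → ZG G) (B : Fin 4 → ZG G)
    (z : Fin 16 → ZG G) (u : Fin 4 → ZG G) :
    ∑ i, (c3 (Rf ℤ s) z i + f2 (Tr t) u i) * C i + ∑ k, (- k2 (Rf ℤ s) u k) * B k =
      ∑ j, z j * e2 (Lf ℤ s) C j +
        ∑ k, u k * g2 (Lf ℤ s) (lm ℤ (MonoidAlgebra.of ℤ G t)) C B k := by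
  have h1 : ∑ i, c3 (Rf ℤ s) z i * C i = ∑ j, z j * e2 (Lf ℤ s) C j := by
    have e : ∀ j, z j * e2 (Lf ℤ s) C j =
        ∑ i, ∑ a, sg3 j a (eL i).1 (eL i).2 •
          (z j * ((MonoidAlgebra.of ℤ G (s a) - 1) * C i)) := by
      intro j
      have e3 : ∀ i, ∑ a, sg3 j a (eL i).1 (eL i).2 •
          (z j * ((MonoidAlgebra.of ℤ G (s a) - 1) * C i)) =
          sg2 i (tL j).2.1 (tL j).2.2 •
            (z j * ((MonoidAlgebra.of ℤ G (s (tL j).1) - 1) * C i))
          - sg2 i (tL j).1 (tL j).2.2 •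
            (z j * ((MonoidAlgebra.of ℤ G (s (tL j).2.1) - 1) * C i))
          + sg2 i (tL j).1 (tL j).2.1 •
            (z j * ((MonoidAlgebra.of ℤ G (s (tL j).2.2) - 1) * C i)) := by
        intro i
        simp only [sg3_eq, add_smul, sub_smul, ite_smul, zero_smul, Finset.sum_add_distrib,
          Finset.sum_sub_distrib, Finset.sum_ite_eq, Finset.mem_univ, if_true]
      simp only [e3, Finset.sum_add_distrib, Finset.sum_sub_distrib]
      unfold e2
      simp only [Lf_apply, alt2, mul_add, mul_sub, Finset.mul_sum, mul_smul_comm]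
    simp only [e]
    rw [Finset.sum_comm]
    refine Finset.sum_congr rfl fun i _ => ?_
    rw [Finset.sum_comm]
    unfold c3
    rw [Finset.sum_mul]
    refine Finset.sum_congr rfl fun a _ => ?_
    rw [Rf_apply, alt3, Finset.sum_mul, Finset.sum_mul]
    refine Finset.sum_congr rfl fun j _ => ?_
    rw [smul_mul_assoc, smul_mul_assoc, mul_assoc]
  have h2 : ∑ i, f2 (Tr t) u i * C i =
      ∑ k, u k * (MonoidAlgebra.of ℤ G t * alt2 C (mm k) (mm (k + 1))
        - alt2 C (pp k) (pp (k + 1))) := by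
    unfold f2
    simp only [Finset.sum_mul]
    rw [Finset.sum_comm]
    refine Finset.sum_congr rfl fun k _ => ?_
    rw [mul_sub]
    simp only [alt2, Finset.mul_sum, sub_mul, Finset.sum_sub_distrib, smul_mul_assoc,
      mul_smul_comm, Tr_apply, mul_assoc]
  have h3 : ∑ k, (- k2 (Rf ℤ s) u k) * B k =
      ∑ k, u k * (-(Lf ℤ s (pp k) (B (k + 1)) - Lf ℤ s (pp (k + 1)) (B k))) := by
    have e1 : ∀ k : Fin 4, (- k2 (Rf ℤ s) u k) * B k =
        u k * (Lf ℤ s (pp (k + 1)) (B k)) - u (k - 1) * (Lf ℤ s (pp (k - 1)) (B k)) := by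
      intro k
      unfold k2
      rw [Rf_apply, Rf_apply, Lf_apply, Lf_apply]
      noncomm_ring
    have e2 : ∀ k : Fin 4,
        u k * (-(Lf ℤ s (pp k) (B (k + 1)) - Lf ℤ s (pp (k + 1)) (B k))) =
        u k * (Lf ℤ s (pp (k + 1)) (B k)) - u k * (Lf ℤ s (pp k) (B (k + 1))) := by
      intro k
      rw [neg_sub, mul_sub]
    simp only [e1, e2, Finset.sum_sub_distrib]
    rw [sub_right_inj]
    refine Fintype.sum_equiv (Equiv.subRight (1 : Fin 4)) _ _ fun k => ?_
    rw [Equiv.subRight_apply, sub_add_cancel]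
  simp only [add_mul, Finset.sum_add_distrib]
  rw [h1, h2, h3, add_assoc, ← Finset.sum_add_distrib]
  congr 1
  refine Finset.sum_congr rfl fun k _ => ?_
  rw [← mul_add]
  unfold g2
  rw [lm_apply, sub_eq_add_neg (_ - _)]

/-- a linear form on `P1` in coordinates -/
theorem coord1 (φ : ((Fin 10 → ZG G) × ZG G) →ₗ[ZG G] ZG G) (x : Fin 10 → ZG G) (m : ZG G) :
    φ (x, m) = ∑ v, x v * φ (Pi.single v 1, 0) + m * φ (0, 1) := by
  have h : (x, m) = (∑ v, x v • ((Pi.single v (1 : ZG G), (0 : ZG G)) :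
      (Fin 10 → ZG G) × ZG G)) + m • ((0, 1) : (Fin 10 → ZG G) × ZG G) := by
    refine Prod.ext ?_ ?_
    · rw [Prod.fst_add, Prod.fst_sum]
      funext w
      simp [Finset.sum_apply, Pi.single_apply]
    · rw [Prod.snd_add, Prod.snd_sum]
      simp
  rw [h, map_add, map_sum]
  simp only [map_smul, smul_eq_mul]

/-- a linear form on `P2` or `P3` in coordinates -/
theorem coord2 (n : ℕ) (φ : ((Fin n → ZG G) × (Fin 4 → ZG G)) →ₗ[ZG G] ZG G)
    (x : Fin n → ZG G) (m : Fin 4 → ZG G) :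
    φ (x, m) = ∑ v, x v * φ (Pi.single v 1, 0) + ∑ k, m k * φ (0, Pi.single k 1) := by
  have h : (x, m) = (∑ v, x v • ((Pi.single v (1 : ZG G), (0 : Fin 4 → ZG G)) :
      (Fin n → ZG G) × (Fin 4 → ZG G))) +
      ∑ k, m k • ((0, Pi.single k 1) : (Fin n → ZG G) × (Fin 4 → ZG G)) := by
    refine Prod.ext ?_ ?_
    · rw [Prod.fst_add, Prod.fst_sum, Prod.fst_sum]
      funext w
      simp [Finset.sum_apply, Pi.single_apply]
    · rw [Prod.snd_add, Prod.snd_sum, Prod.snd_sum]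
      funext w
      simp [Finset.sum_apply, Pi.single_apply]
  rw [h, map_add, map_sum, map_sum]
  simp only [map_smul, smul_eq_mul]

/-- pairing in degree 1 -/
theorem pair1 (s : Fin 10 → G) (t : G) (φ : ((Fin 10 → ZG G) × ZG G) →ₗ[ZG G] ZG G)
    (y : Fin 26 → ZG G) (w : Fin 4 → ZG G) :
    φ (d1 s t (y, w)) =
      ∑ i, y i * e1 (Lf ℤ s) (fun v => φ (Pi.single v 1, 0)) i +
        ∑ k, w k * g1 (Lf ℤ s) (lm ℤ (MonoidAlgebra.of ℤ G t))
          (fun v => φ (Pi.single v 1, 0)) (φ (0, 1)) k := by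
  rw [← pr1 s t (fun v => φ (Pi.single v 1, 0)) (φ (0, 1)) y w]
  exact coord1 φ (fun b => c2 (Rf ℤ s) y b + f1 (Tr t) w b) (- k1 (Rf ℤ s) w)

/-- pairing in degree 2 -/
theorem pair2 (s : Fin 10 → G) (t : G)
    (φ : ((Fin 26 → ZG G) × (Fin 4 → ZG G)) →ₗ[ZG G] ZG G)
    (z : Fin 16 → ZG G) (u : Fin 4 → ZG G) :
    φ (d2 s t (z, u)) =
      ∑ j, z j * e2 (Lf ℤ s) (fun i => φ (Pi.single i 1, 0)) j +
        ∑ k, u k * g2 (Lf ℤ s) (lm ℤ (MonoidAlgebra.of ℤ G t))
          (fun i => φ (Pi.single i 1, 0)) (fun k => φ (0, Pi.single k 1)) k := by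
  rw [← pr2 s t (fun i => φ (Pi.single i 1, 0)) (fun k => φ (0, Pi.single k 1)) z u]
  exact coord2 26 φ (fun i => c3 (Rf ℤ s) z i + f2 (Tr t) u i) (fun k => - k2 (Rf ℤ s) u k)

/-- the linear form on `P1` with given coordinates -/
noncomputable def form1 (X : Fin 10 → ZG G) (Y : ZG G) :
    ((Fin 10 → ZG G) × ZG G) →ₗ[ZG G] ZG G where
  toFun p := ∑ v, p.1 v * X v + p.2 * Y
  map_add' p q := by
    simp only [Prod.fst_add, Prod.snd_add, Pi.add_apply, add_mul, Finset.sum_add_distrib]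
    abel
  map_smul' a p := by
    simp only [Prod.smul_fst, Prod.smul_snd, Pi.smul_apply, smul_eq_mul, RingHom.id_apply,
      mul_add, Finset.mul_sum, mul_assoc]

theorem form1_apply (X : Fin 10 → ZG G) (Y : ZG G) (x : Fin 10 → ZG G) (m : ZG G) :
    form1 X Y (x, m) = ∑ v, x v * X v + m * Y := rfl

/-- the linear form on `P2` or `P3` with given coordinates -/
noncomputable def form2 {n : ℕ} (C : Fin n → ZG G) (B : Fin 4 → ZG G) :
    ((Fin n → ZG G) × (Fin 4 → ZG G)) →ₗ[ZG G] ZG G where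
  toFun p := ∑ v, p.1 v * C v + ∑ k, p.2 k * B k
  map_add' p q := by
    simp only [Prod.fst_add, Prod.snd_add, Pi.add_apply, add_mul, Finset.sum_add_distrib]
    abel
  map_smul' a p := by
    simp only [Prod.smul_fst, Prod.smul_snd, Pi.smul_apply, smul_eq_mul, RingHom.id_apply,
      mul_add, Finset.mul_sum, mul_assoc]

theorem form2_apply {n : ℕ} (C : Fin n → ZG G) (B : Fin 4 → ZG G) (x : Fin n → ZG G)
    (m : Fin 4 → ZG G) : form2 C B (x, m) = ∑ v, x v * C v + ∑ k, m k * B k := rfl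

theorem form1_d1 (s : Fin 10 → G) (t : G) (X : Fin 10 → ZG G) (Y : ZG G)
    (y : Fin 26 → ZG G) (w : Fin 4 → ZG G) :
    form1 X Y (d1 s t (y, w)) =
      ∑ i, y i * e1 (Lf ℤ s) X i +
        ∑ k, w k * g1 (Lf ℤ s) (lm ℤ (MonoidAlgebra.of ℤ G t)) X Y k :=
  pr1 s t X Y y w

theorem form2_d2 (s : Fin 10 → G) (t : G) (C : Fin 26 → ZG G) (B : Fin 4 → ZG G)
    (z : Fin 16 → ZG G) (u : Fin 4 → ZG G) :
    form2 C B (d2 s t (z, u)) =
      ∑ j, z j * e2 (Lf ℤ s) C j +
        ∑ k, u k * g2 (Lf ℤ s) (lm ℤ (MonoidAlgebra.of ℤ G t)) C B k :=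
  pr2 s t C B z u

/-- the coordinates of a form killing `d1` -/
theorem zero1 (s : Fin 10 → G) (t : G) (φ : ((Fin 10 → ZG G) × ZG G) →ₗ[ZG G] ZG G)
    (h : φ ∘ₗ d1 s t = 0) :
    (∀ i, e1 (Lf ℤ s) (fun v => φ (Pi.single v 1, 0)) i = 0) ∧
    (∀ k, g1 (Lf ℤ s) (lm ℤ (MonoidAlgebra.of ℤ G t))
          (fun v => φ (Pi.single v 1, 0)) (φ (0, 1)) k = 0) := by
  have h0 : ∀ y w, φ (d1 s t (y, w)) = 0 := fun y w => by
    have := LinearMap.congr_fun h (y, w)
    simpa using this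
  constructor
  · intro i
    have h1 := h0 (Pi.single i 1) 0
    rw [pair1] at h1
    simpa [Pi.single_apply] using h1
  · intro k
    have h1 := h0 0 (Pi.single k 1)
    rw [pair1] at h1
    simpa [Pi.single_apply] using h1

/-- the coordinates of a form killing `d2` -/
theorem zero2 (s : Fin 10 → G) (t : G)
    (φ : ((Fin 26 → ZG G) × (Fin 4 → ZG G)) →ₗ[ZG G] ZG G)
    (h : φ ∘ₗ d2 s t = 0) :
    (∀ j, e2 (Lf ℤ s) (fun i => φ (Pi.single i 1, 0)) j = 0) ∧
    (∀ k, g2 (Lf ℤ s) (lm ℤ (MonoidAlgebra.of ℤ G t))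
          (fun i => φ (Pi.single i 1, 0)) (fun k => φ (0, Pi.single k 1)) k = 0) := by
  have h0 : ∀ y w, φ (d2 s t (y, w)) = 0 := fun y w => by
    have := LinearMap.congr_fun h (y, w)
    simpa using this
  constructor
  · intro i
    have h1 := h0 (Pi.single i 1) 0
    rw [pair2] at h1
    simpa [Pi.single_apply] using h1
  · intro k
    have h1 := h0 0 (Pi.single k 1)
    rw [pair2] at h1
    simpa [Pi.single_apply] using h1

end

theorem th (h1 : PropCOHA) (h2 : PropCOHB) (h3 : PropLFT) : PropFB := by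
  intro G _ s t hG
  obtain ⟨hreg, hint, hT⟩ := h3 G s t hG ℤ
  obtain ⟨ha, hb⟩ := h1 (ZG G) (Lf ℤ s) (lm ℤ (MonoidAlgebra.of ℤ G t)) hreg hint
  refine ⟨?_, ?_, ?_⟩
  · intro φ hφ
    have h4 : φ (d0 s t (Pi.single 0 1, 0)) = 0 := by
      have := LinearMap.congr_fun hφ (Pi.single 0 1, 0)
      simpa using this
    have h5 : d0 s t (Pi.single 0 1, 0) = MonoidAlgebra.of ℤ G (s 0) - 1 := by
      change c1 (Rf ℤ s) (Pi.single 0 1) + (Tr t 0 - 0) = _
      unfold c1
      simp [Rf_apply, Pi.single_apply, ite_mul]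
    have h6 : ∀ x : ZG G, φ x = x * φ 1 := by
      intro x
      have := φ.map_smul x 1
      simpa using this
    have h7 : Lf ℤ s 0 (φ 1) = 0 := by
      rw [Lf_apply, ← h6, ← h5]
      exact h4
    have h8 := ha 0 _ h7
    apply LinearMap.ext
    intro x
    rw [h6 x, h8, mul_zero, LinearMap.zero_apply]
  · intro φ hφ
    obtain ⟨hz1, hz2⟩ := zero1 s t φ hφ
    obtain ⟨m, hm1, hm2⟩ := hb _ _ hz1 hz2
    refine ⟨LinearMap.toSpanSingleton (ZG G) (ZG G) m, ?_⟩
    apply LinearMap.ext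
    rintro ⟨x, y⟩
    rw [coord1 φ x y, hm2]
    have hm1' : ∀ v, φ (Pi.single v 1, 0) = Lf ℤ s v m := hm1
    simp only [hm1']
    rw [LinearMap.comp_apply, LinearMap.toSpanSingleton_apply, smul_eq_mul]
    have e1 : ∀ v, Rf ℤ s v (x v) * m = x v * Lf ℤ s v m := by
      intro v
      rw [Rf_apply, Lf_apply, mul_assoc]
    have e2 : (Tr t y - y) * m = y * (lm ℤ (MonoidAlgebra.of ℤ G t) m - m) := by
      rw [Tr_apply, lm_apply, sub_mul, mul_sub, mul_assoc]
    have e3 : d0 s t (x, y) = ∑ v, Rf ℤ s v (x v) + (Tr t y - y) := rfl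
    rw [e3, add_mul, Finset.sum_mul, e2]
    simp only [e1]
  · intro φ hφ
    obtain ⟨hz1, hz2⟩ := zero2 s t φ hφ
    obtain ⟨X, Y, hX, hY⟩ := h2 (ZG G) (Lf ℤ s) (lm ℤ (MonoidAlgebra.of ℤ G t)) hreg hint hT
      _ _ hz1 hz2
    refine ⟨form1 X Y, ?_⟩
    apply LinearMap.ext
    rintro ⟨y, w⟩
    rw [LinearMap.comp_apply, form1_d1, coord2 26 φ y w]
    simp only [← hX, ← hY]

end Pool.Agent.W362.DU
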